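import Pool.Agent.Helper56.Un.E8Stmts

set_option autoImplicit false

/-!
# The cusp of the Eisenstein lattice over `E₈`
-/

namespace Pool.Agent.Helper19.Un

open MeasureTheory Topology
open scoped ComplexConjugate

theorem ecusp_s3 : Real.sqrt 3 * Real.sqrt 3 = 3 := Real.mul_self_sqrt (by norm_num)

theorem ecusp_om2 : om * om = -1 - om := by
  have h := ecusp_s3
  apply Complex.ext
  · simp only [om, Complex.mul_re, Complex.sub_re, Complex.neg_re, Complex.one_re]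
    linarith
  · simp only [om, Complex.mul_im, Complex.sub_im, Complex.neg_im, Complex.one_im]
    ring

theorem ecusp_th : th = 1 + 2 * om := by
  apply Complex.ext
  · simp [om, th]
    norm_num
  · simp [om, th]
    ring

theorem ecusp_conj_om : conj om = -1 - om := by
  apply Complex.ext
  · simp only [om, Complex.conj_re, Complex.sub_re, Complex.neg_re, Complex.one_re]
    norm_num
  · simp only [om, Complex.conj_im, Complex.sub_im, Complex.neg_im, Complex.one_im]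
    ring

theorem ecusp_conj_th : conj th = -th := by
  apply Complex.ext
  · simp [th]
  · simp [th]

theorem ecusp_th2 : th * th = -3 := by
  rw [ecusp_th]
  linear_combination 4 * ecusp_om2

theorem ecusp_mul {x y : ℂ} (hx : x ∈ Eis) (hy : y ∈ Eis) : x * y ∈ Eis := by
  obtain ⟨a, b, rfl⟩ := hx
  obtain ⟨c, d, rfl⟩ := hy
  refine ⟨a * c - b * d, a * d + b * c - b * d, ?_⟩
  push_cast
  linear_combination (b : ℂ) * d * ecusp_om2

theorem ecusp_conj {x : ℂ} (hx : x ∈ Eis) : conj x ∈ Eis := by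
  obtain ⟨a, b, rfl⟩ := hx
  refine ⟨a - b, -b, ?_⟩
  rw [map_add, map_mul, ecusp_conj_om, map_intCast, map_intCast]
  push_cast
  ring

theorem ecusp_om_mem : om ∈ Eis := ⟨0, 1, by simp⟩

theorem ecusp_one_mem : (1 : ℂ) ∈ Eis := ⟨1, 0, by simp⟩

theorem ecusp_int_mem (n : ℤ) : (n : ℂ) ∈ Eis := ⟨n, 0, by simp⟩

theorem ecusp_th_mem : th ∈ Eis := ⟨1, 2, by rw [ecusp_th]; push_cast; ring⟩

theorem ecusp_E8L {ζ : E 4} : ζ ∈ E8L ↔ ∃ P ∈ Eis, ∃ Q ∈ Eis, ∃ R ∈ Eis, ∃ S ∈ Eis,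
    ζ 0 = th * P + Q ∧ ζ 1 = Q + th * R + S ∧ ζ 2 = Q - S ∧ ζ 3 = S := by
  have h3 := ecusp_th2
  constructor
  · rintro ⟨hi, ⟨k, hk, h1⟩, l, hl, h2⟩
    refine ⟨k - l + th * ζ 2, Eis.add_mem (Eis.sub_mem hk hl) (ecusp_mul ecusp_th_mem (hi 2)),
      ζ 2 + ζ 3, Eis.add_mem (hi 2) (hi 3), l + th * ζ 3,
      Eis.add_mem hl (ecusp_mul ecusp_th_mem (hi 3)), ζ 3, hi 3, ?_, ?_, ?_, rfl⟩
    · linear_combination h1 - h2 - ζ 2 * h3
    · linear_combination h2 - ζ 3 * h3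
    · ring
  · rintro ⟨P, hP, Q, hQ, R, hR, S, hS, h0, h1, h2, h4⟩
    have tP := ecusp_mul ecusp_th_mem hP
    have tR := ecusp_mul ecusp_th_mem hR
    have tQ := ecusp_mul ecusp_th_mem hQ
    have tS := ecusp_mul ecusp_th_mem hS
    refine ⟨fun i => ?_, ⟨P + R - th * Q, Eis.sub_mem (Eis.add_mem hP hR) tQ, ?_⟩,
      R - th * S, Eis.sub_mem hR tS, ?_⟩
    · fin_cases i
      · show ζ 0 ∈ Eis
        rw [h0]
        exact Eis.add_mem tP hQ
      · show ζ 1 ∈ Eis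
        rw [h1]
        exact Eis.add_mem (Eis.add_mem hQ tR) hS
      · show ζ 2 ∈ Eis
        rw [h2]
        exact Eis.sub_mem hQ hS
      · show ζ 3 ∈ Eis
        rw [h4]
        exact hS
    · rw [h0, h1, h2]
      linear_combination Q * h3
    · rw [h1, h2, h4]
      linear_combination S * h3

theorem ecusp_smul {s : ℂ} (hs : s ∈ Eis) {b : E 4} (hb : b ∈ E8L) : s • b ∈ E8L := by
  obtain ⟨P, hP, Q, hQ, R, hR, S, hS, h0, h1, h2, h4⟩ := ecusp_E8L.1 hb
  refine ecusp_E8L.2 ⟨s * P, ecusp_mul hs hP, s * Q, ecusp_mul hs hQ, s * R, ecusp_mul hs hR,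
    s * S, ecusp_mul hs hS, ?_, ?_, ?_, ?_⟩
  · rw [PiLp.smul_apply, smul_eq_mul, h0]
    ring
  · rw [PiLp.smul_apply, smul_eq_mul, h1]
    ring
  · rw [PiLp.smul_apply, smul_eq_mul, h2]
    ring
  · rw [PiLp.smul_apply, smul_eq_mul, h4]

theorem ecusp_inner_apply (b c : E 4) : inner ℂ b c =
    conj (b 0) * c 0 + conj (b 1) * c 1 + conj (b 2) * c 2 + conj (b 3) * c 3 := by
  rw [PiLp.inner_apply, Fin.sum_univ_four, RCLike.inner_apply, RCLike.inner_apply,
    RCLike.inner_apply, RCLike.inner_apply]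
  ring

theorem ecusp_inner {b c : E 4} (hb : b ∈ E8L) (hc : c ∈ E8L) :
    ∃ z ∈ Eis, inner ℂ b c = th * z := by
  obtain ⟨P, hP, Q, hQ, R, hR, S, hS, h0, h1, h2, h4⟩ := ecusp_E8L.1 hb
  obtain ⟨P', hP', Q', hQ', R', hR', S', hS', h0', h1', h2', h4'⟩ := ecusp_E8L.1 hc
  have cP := ecusp_conj hP
  have cQ := ecusp_conj hQ
  have cR := ecusp_conj hR
  have cS := ecusp_conj hS
  have tm : ∀ {x y : ℂ}, x ∈ Eis → y ∈ Eis → th * (x * y) ∈ Eis := fun hx hy =>
    ecusp_mul ecusp_th_mem (ecusp_mul hx hy)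
  refine ⟨-(th * (conj P * P')) - conj P * Q' + conj Q * P' - th * (conj R * R')
    - conj R * (Q' + S') + (conj Q + conj S) * R' - th * (conj Q * Q') - th * (conj S * S'),
    ?_, ?_⟩
  · exact Eis.sub_mem (Eis.sub_mem (Eis.add_mem (Eis.sub_mem (Eis.sub_mem (Eis.add_mem (Eis.sub_mem
      (Eis.neg_mem (tm cP hP')) (ecusp_mul cP hQ')) (ecusp_mul cQ hP')) (tm cR hR'))
      (ecusp_mul cR (Eis.add_mem hQ' hS'))) (ecusp_mul (Eis.add_mem cQ cS) hR')) (tm cQ hQ'))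
      (tm cS hS')
  · rw [ecusp_inner_apply, h0, h1, h2, h4, h0', h1', h2', h4']
    simp only [map_add, map_sub, map_mul, ecusp_conj_th]
    linear_combination (conj Q * Q' + conj S * S') * ecusp_th2

theorem ecusp_norm {b : E 4} (hb : b ∈ E8L) : ∃ x : ℤ, ‖b‖ ^ 2 = -3 * x := by
  obtain ⟨z, ⟨x, y, rfl⟩, hz⟩ := ecusp_inner hb hb
  rw [inner_self_c] at hz
  have h3 : (0 : ℝ) < Real.sqrt 3 := by positivity
  have h33 := ecusp_s3
  have h1 := congrArg Complex.re hz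
  have h2 := congrArg Complex.im hz
  simp only [th, om, Complex.mul_re, Complex.mul_im, Complex.add_re, Complex.add_im, Complex.intCast_re,
    Complex.intCast_im, Complex.ofReal_re, Complex.ofReal_im] at h1 h2
  have h4 : (x : ℝ) - y / 2 = 0 := by
    have : Real.sqrt 3 * ((x : ℝ) - y / 2) = 0 := by linarith
    rcases mul_eq_zero.1 this with h | h
    · exact absurd h h3.ne'
    · exact h
  refine ⟨x, ?_⟩
  rw [h1]
  have h5 : (y : ℝ) = 2 * x := by linarith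
  rw [h5]
  linear_combination (-x : ℝ) * h33

theorem ecusp_re_im (x y : ℤ) : (th * ((x : ℂ) + y * om)).re = -(3 / 2) * y ∧
    (th * ((x : ℂ) + y * om)).im = Real.sqrt 3 * (x - y / 2) := by
  have h33 := ecusp_s3
  constructor
  · simp only [th, om, Complex.mul_re, Complex.mul_im, Complex.add_re, Complex.add_im, Complex.intCast_re,
      Complex.intCast_im]
    linear_combination (-(y : ℝ) / 2) * h33
  · simp only [th, om, Complex.mul_re, Complex.mul_im, Complex.add_re, Complex.add_im, Complex.intCast_re,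
      Complex.intCast_im]
    ring

theorem ecusp_sum (f : Fin (2 * 4) → E 4) :
    ∑ i, f i = f 0 + f 1 + f 2 + f 3 + f 4 + f 5 + f 6 + f 7 := Fin.sum_univ_eight f

theorem ecusp_comb (g : Fin (2 * 4) → ℝ) :
    (∑ i, g i • bE8 i) 0 = th * (g 0 + g 1 * om) + (g 2 + g 3 * om) ∧
    (∑ i, g i • bE8 i) 1 = (g 2 + g 3 * om) + th * (g 4 + g 5 * om) + (g 6 + g 7 * om) ∧
    (∑ i, g i • bE8 i) 2 = (g 2 + g 3 * om) - (g 6 + g 7 * om) ∧
    (∑ i, g i • bE8 i) 3 = g 6 + g 7 * om := by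
  rw [ecusp_sum]
  refine ⟨?_, ?_, ?_, ?_⟩
  · simp only [PiLp.add_apply, PiLp.smul_apply, Complex.real_smul]
    simp [bE8]
    ring
  · simp only [PiLp.add_apply, PiLp.smul_apply, Complex.real_smul]
    simp [bE8]
    ring
  · simp only [PiLp.add_apply, PiLp.smul_apply, Complex.real_smul]
    simp [bE8]
    ring
  · simp only [PiLp.add_apply, PiLp.smul_apply, Complex.real_smul]
    simp [bE8]

theorem ecusp_om_ind {x y : ℝ} (h : (x : ℂ) + y * om = 0) : x = 0 ∧ y = 0 := by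
  have h3 : (0 : ℝ) < Real.sqrt 3 := by positivity
  have h1 := congrArg Complex.re h
  have h2 := congrArg Complex.im h
  simp only [om, Complex.mul_re, Complex.mul_im, Complex.add_re, Complex.add_im, Complex.ofReal_re,
    Complex.ofReal_im, Complex.zero_re, Complex.zero_im] at h1 h2
  have hy : y = 0 := by
    have : y * Real.sqrt 3 = 0 := by linarith
    rcases mul_eq_zero.1 this with h | h
    · exact h
    · exact absurd h h3.ne'
  rw [hy] at h1
  exact ⟨by linarith, hy⟩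

theorem ecusp_th_ne : th ≠ 0 := by
  intro h
  have := ecusp_th2
  rw [h] at this
  norm_num at this

theorem ecusp_li : LinearIndependent ℝ bE8 := by
  rw [Fintype.linearIndependent_iff]
  intro g hg
  obtain ⟨h0, h1, h2, h3⟩ := ecusp_comb g
  rw [hg] at h0 h1 h2 h3
  have e4 : ((g 6 : ℝ) : ℂ) + g 7 * om = 0 := h3.symm
  have e2 : ((g 2 : ℝ) : ℂ) + g 3 * om = 0 := by
    have h : (0 : ℂ) = (g 2 + g 3 * om) - (g 6 + g 7 * om) := h2
    rw [e4, sub_zero] at h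
    exact h.symm
  have e1 : ((g 0 : ℝ) : ℂ) + g 1 * om = 0 := by
    have h : (0 : ℂ) = th * (g 0 + g 1 * om) + (g 2 + g 3 * om) := h0
    rw [e2, add_zero] at h
    rcases mul_eq_zero.1 h.symm with h | h
    · exact absurd h ecusp_th_ne
    · exact h
  have e3 : ((g 4 : ℝ) : ℂ) + g 5 * om = 0 := by
    have h : (0 : ℂ) = (g 2 + g 3 * om) + th * (g 4 + g 5 * om) + (g 6 + g 7 * om) := h1
    rw [e2, e4, zero_add, add_zero] at h
    rcases mul_eq_zero.1 h.symm with h | h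
    · exact absurd h ecusp_th_ne
    · exact h
  obtain ⟨a0, a1⟩ := ecusp_om_ind e1
  obtain ⟨a2, a3⟩ := ecusp_om_ind e2
  obtain ⟨a4, a5⟩ := ecusp_om_ind e3
  obtain ⟨a6, a7⟩ := ecusp_om_ind e4
  intro i
  fin_cases i
  · exact a0
  · exact a1
  · exact a2
  · exact a3
  · exact a4
  · exact a5
  · exact a6
  · exact a7

theorem ecusp_zero_mem : (0 : E 4) ∈ E8L := E8L.zero_mem

theorem ecusp_Cusp : Cusp NE8 bE8 (Real.sqrt 3) where
  cpos := by positivity
  li := ecusp_li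
  norm := fun a b h => h.2.2
  mul := by
    rintro a b a' b' ⟨⟨x, hx, h1⟩, h2, h3⟩ ⟨⟨x', hx', h1'⟩, h2', h3'⟩
    obtain ⟨z, hz, hi⟩ := ecusp_inner h2 h2'
    refine ⟨⟨x + x' - z, Eis.sub_mem (Eis.add_mem hx hx') hz, ?_⟩, E8L.add_mem h2 h2', ?_⟩
    · rw [h1, h1', hi]
      ring
    · rw [norm_add_sq_c, Complex.sub_re, Complex.add_re]
      linarith
  inv := by
    rintro a b ⟨⟨x, hx, h1⟩, h2, h3⟩
    refine ⟨⟨-conj x, Eis.neg_mem (ecusp_conj hx), ?_⟩, E8L.neg_mem h2, ?_⟩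
    · rw [h1, map_mul, ecusp_conj_th]
      ring
    · rw [Complex.conj_re, norm_neg]
      exact h3
  lat := by
    intro b
    constructor
    · rintro ⟨a, _, h2, _⟩
      obtain ⟨P, ⟨p0, p1, rfl⟩, Q, ⟨q0, q1, rfl⟩, R, ⟨r0, r1, rfl⟩, S, ⟨s0, s1, rfl⟩, e0, e1, e2,
        e3⟩ := ecusp_E8L.1 h2
      refine ⟨![p0, p1, q0, q1, r0, r1, s0, s1], ?_⟩
      obtain ⟨c0, c1, c2, c3⟩ := ecusp_comb
        (fun i => ((![p0, p1, q0, q1, r0, r1, s0, s1] : Fin 8 → ℤ) i : ℝ))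
      ext i
      fin_cases i
      · refine e0.trans (Eq.trans ?_ c0.symm)
        simp
      · refine e1.trans (Eq.trans ?_ c1.symm)
        simp
      · refine e2.trans (Eq.trans ?_ c2.symm)
        simp
      · refine e3.trans (Eq.trans ?_ c3.symm)
        simp
    · rintro ⟨k, hk⟩
      obtain ⟨c0, c1, c2, c3⟩ := ecusp_comb (fun i => (k i : ℝ))
      have hb : b ∈ E8L := by
        refine ecusp_E8L.2 ⟨k 0 + k 1 * om, ⟨k 0, k 1, rfl⟩, k 2 + k 3 * om, ⟨k 2, k 3, rfl⟩,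
          k 4 + k 5 * om, ⟨k 4, k 5, rfl⟩, k 6 + k 7 * om, ⟨k 6, k 7, rfl⟩, ?_, ?_, ?_, ?_⟩
        · rw [hk, c0]
          push_cast
          rfl
        · rw [hk, c1]
          push_cast
          rfl
        · rw [hk, c2]
          push_cast
          rfl
        · rw [hk, c3]
          push_cast
          rfl
      obtain ⟨x, hx⟩ := ecusp_norm hb
      refine ⟨th * (((0 : ℤ) : ℂ) + ((-x : ℤ) : ℂ) * om), ⟨_, ⟨0, -x, rfl⟩, rfl⟩, hb, ?_⟩
      rw [(ecusp_re_im 0 (-x)).1, hx]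
      push_cast
      ring
  cen := by
    intro a
    constructor
    · rintro ⟨⟨_, ⟨x, y, rfl⟩, h1⟩, _, h3⟩
      have r := ecusp_re_im x y
      rw [norm_zero] at h3
      rw [h1, r.1] at h3
      have hy : (y : ℝ) = 0 := by linarith
      refine ⟨x, ?_⟩
      rw [h1]
      apply Complex.ext
      · rw [r.1, hy]
        simp
      · rw [r.2, hy]
        simp
        ring
    · rintro ⟨k, rfl⟩
      refine ⟨⟨k, ecusp_int_mem k, ?_⟩, ecusp_zero_mem, ?_⟩
      · apply Complex.ext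
        · simp [th]
        · simp [th]
          ring
      · simp

theorem ecusp_T_ME8 {a : ℂ} {b : E 4} (h : NE8 a b) {x : V 4} (hx : x ∈ ME8) : T a b x ∈ ME8 := by
  obtain ⟨⟨a', ha', e⟩, hb, _⟩ := h
  obtain ⟨⟨x1, hx1, e1⟩, hx2, hx3⟩ := hx
  obtain ⟨z, hz, ei⟩ := ecusp_inner hb hx2
  rw [T_apply]
  refine ⟨⟨x1 - z + a' * x.2.2, Eis.add_mem (Eis.sub_mem hx1 hz) (ecusp_mul ha' hx3), ?_⟩,
    E8L.add_mem hx2 (ecusp_smul hx3 hb), hx3⟩
  show x.1 - inner ℂ b x.2.1 + a * x.2.2 = th * (x1 - z + a' * x.2.2)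
  rw [e1, ei, e]
  ring

theorem ecusp_Gam (a : ℂ) (b : E 4) (h : NE8 a b) : T a b ∈ Gam ME8 := by
  refine ⟨T_mem_UG h.2.2, fun x => ⟨fun hx => ?_, fun hx => ecusp_T_ME8 h hx⟩⟩
  have hi := ecusp_Cusp.inv a b h
  have h1 := ecusp_T_ME8 hi hx
  have e : T (conj a) (-b) * T a b = 1 := by
    rw [T_mul]
    have e1 : conj a + a - inner ℂ (-b) b = 0 := by
      rw [inner_neg_left]
      linear_combination add_conj_of h.2.2
    rw [e1, neg_add_cancel]
    refine LinearEquiv.ext fun y => ?_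
    rw [T_apply]
    refine Prod.ext ?_ (Prod.ext ?_ rfl)
    · show y.1 - inner ℂ (0 : E 4) y.2.1 + 0 * y.2.2 = y.1
      rw [inner_zero_left]
      ring
    · show y.2.1 + y.2.2 • (0 : E 4) = y.2.1
      rw [smul_zero, add_zero]
  have e2 : T (conj a) (-b) (T a b x) = x := by
    rw [← LinearEquiv.mul_apply, e]
    rfl
  rw [e2] at h1
  exact h1

theorem st_ECUSP : ST_ECUSP := ⟨ecusp_Cusp, ecusp_Gam⟩

end Pool.Agent.Helper19.Un
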